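import Pool.Agent.W550.LG.StmV

/-!
# LG-D1: the first layer of the downward swing
-/

set_option autoImplicit false

open Set

namespace Pool.Agent.W540.LG.D1

open Pool.Agent.W550.LG

variable {t C N K x y s : ℝ} {lam k c a th : ℝ → ℝ}

/-- The size of `c` as long as it is negative. -/
theorem size (ht : 0 < t) (hC : 0 < C) (hK : 0 < K) (hCK : C * K ≤ t) (hN : 0 < N)
    (hs8 : s ≤ x + 1 / 8)
    (dc : ∀ r ∈ Icc x s, HasDerivAt c (a r) r)
    (da : ∀ r ∈ Icc x s, HasDerivAt a (t * (lam r * k r) * a r - c r + th r) r)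
    (hk : ∀ r ∈ Icc x s, 1 / 2 ≤ k r)
    (hlam : ∀ r ∈ Icc x s, lam r ≤ 0) (hlK : ∀ r ∈ Icc x s, |lam r| ≤ K)
    (hth : ∀ r ∈ Icc x s, ∀ M, N ≤ M → (∀ r' ∈ Icc x r, |c r'| ≤ M) → |th r| ≤ C / t * |lam r| * M)
    (hcx : |c x| ≤ N) (hax : |a x| ≤ N) (hneg : ∀ r ∈ Icc x s, c r < 0) :
    ∀ r ∈ Icc x s, |c r| ≤ 3 * N := by
  intro r1 hr1
  have hxs : x ≤ s := hr1.1.trans hr1.2
  have hcc : ContinuousOn c (Icc x s) := fun r hr => (dc r hr).continuousAt.continuousWithinAt
  have hac : ContinuousOn a (Icc x s) := fun r hr => (da r hr).continuousAt.continuousWithinAt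
  obtain ⟨r0, hr0, hmax⟩ := isCompact_Icc.exists_isMaxOn ⟨x, left_mem_Icc.2 hxs⟩ hcc.abs
  have hmax' : ∀ r ∈ Icc x s, |c r| ≤ |c r0| := fun r hr => hmax hr
  obtain ⟨M, hM⟩ : ∃ M, M = max N |c r0| := ⟨_, rfl⟩
  have hNM : N ≤ M := hM ▸ le_max_left _ _
  have hM0 : 0 < M := lt_of_lt_of_le hN hNM
  have hcM : ∀ r ∈ Icc x s, |c r| ≤ M := fun r hr => (hmax' r hr).trans (hM ▸ le_max_right _ _)
  obtain ⟨η, hη⟩ : ∃ η, η = 2 * (C * K / t * M) := ⟨_, rfl⟩
  have hb0 : 0 < C * K / t * M := by positivity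
  have hη0 : 0 < η := by rw [hη]; positivity
  have hη1 : η ≤ 2 * M := by
    rw [hη]
    have : C * K / t ≤ 1 := by rw [div_le_one ht]; exact hCK
    nlinarith
  have hthM : ∀ r ∈ Icc x s, |th r| < η := by
    intro r hr
    have h1 := hth r hr M hNM (fun r' hr' => hcM r' ⟨hr'.1, hr'.2.trans hr.2⟩)
    have h2 : C / t * |lam r| * M ≤ C / t * K * M := by
      have := hlK r hr
      gcongr
    have h3 : C / t * K * M = C * K / t * M := by ring
    rw [hη]
    linarith
  -- lower bound for a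
  have h1 : ∀ r ∈ Icc x s, - a r ≤ N + η * (r - x) := by
    have key := image_le_of_deriv_right_lt_deriv_boundary' (f := fun r => - a r)
      (f' := fun r => - (t * (lam r * k r) * a r - c r + th r)) (a := x) (b := s)
      (B := fun r => N + η * (r - x)) (B' := fun _ => η) hac.neg
      (fun r hr => ((da r ⟨hr.1, hr.2.le⟩).neg).hasDerivWithinAt)
      (by
        have := (abs_le.1 hax).1
        simp only [sub_self, mul_zero, add_zero]
        linarith)
      (by fun_prop)
      (fun r _ => by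
        have h := (((hasDerivAt_id r).sub_const x).const_mul η).const_add N
        simpa using h.hasDerivWithinAt)
      (by
        intro r hr hreq
        have hr' : r ∈ Icc x s := ⟨hr.1, hr.2.le⟩
        have e1 : 0 ≤ η * (r - x) := mul_nonneg hη0.le (by linarith [hr.1])
        have ha : a r < 0 := by
          linarith
        have e2 : lam r * k r ≤ 0 := mul_nonpos_of_nonpos_of_nonneg (hlam r hr') (by linarith [hk r hr'])
        have e3 : 0 ≤ t * (lam r * k r) * a r := by
          have : t * (lam r * k r) ≤ 0 := mul_nonpos_of_nonneg_of_nonpos ht.le e2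
          exact mul_nonneg_of_nonpos_of_nonpos this ha.le
        have e4 := hneg r hr'
        have e5 := hthM r hr'
        have e6 := (abs_lt.1 e5).1
        linarith)
    intro r hr
    exact key hr
  -- lower bound for c
  have h2 : ∀ r ∈ Icc x s, - c r ≤ N + (N + η / 8) * (r - x) := by
    have key := image_le_of_deriv_right_le_deriv_boundary (f := fun r => - c r)
      (f' := fun r => - a r) (a := x) (b := s)
      (B := fun r => N + (N + η / 8) * (r - x)) (B' := fun _ => N + η / 8) hcc.neg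
      (fun r hr => ((dc r ⟨hr.1, hr.2.le⟩).neg).hasDerivWithinAt)
      (by
        have := (abs_le.1 hcx).1
        simp only [sub_self, mul_zero, add_zero]
        linarith)
      (by fun_prop)
      (fun r _ => by
        have h := (((hasDerivAt_id r).sub_const x).const_mul (N + η / 8)).const_add N
        simpa using h.hasDerivWithinAt)
      (by
        intro r hr
        have hr' : r ∈ Icc x s := ⟨hr.1, hr.2.le⟩
        have e1 := h1 r hr'
        have e2 : η * (r - x) ≤ η * (1 / 8) := by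
          apply mul_le_mul_of_nonneg_left _ hη0.le
          linarith [hr'.2]
        linarith)
    intro r hr
    exact key hr
  have h3 : |c r0| ≤ N + (N + η / 8) * (1 / 8) := by
    rw [abs_of_neg (hneg r0 hr0)]
    have e1 := h2 r0 hr0
    have e2 : (N + η / 8) * (r0 - x) ≤ (N + η / 8) * (1 / 8) := by
      apply mul_le_mul_of_nonneg_left _ (by positivity)
      linarith [hr0.2]
    linarith
  have h4 : M ≤ N + (N + η / 8) * (1 / 8) := by
    rw [hM]
    apply max_le _ h3
    have : 0 ≤ (N + η / 8) * (1 / 8) := by positivity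
    linarith
  have h5 : M ≤ 3 * N := by linarith
  exact (hcM r1 hr1).trans h5

/-- The cone: `a` is at most a multiple of `|c|` as long as `th` is smaller than `|c|`. -/
theorem cone {φ0 κ θ : ℝ} (ht : 0 < t) (hN : 0 < N) (hκ : 0 < κ)
    (hφ0 : 0 ≤ φ0) (hcos : ∀ r ∈ Icc x s, κ ≤ Real.cos (φ0 + 2 * (r - x)))
    (hφ1 : φ0 + 2 * (s - x) ≤ Real.pi)
    (hθ0 : 0 ≤ θ - φ0) (hθ1 : θ - φ0 ≤ Real.pi / 2)
    (dc : ∀ r ∈ Icc x s, HasDerivAt c (a r) r)
    (da : ∀ r ∈ Icc x s, HasDerivAt a (t * (lam r * k r) * a r - c r + th r) r)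
    (hk : ∀ r ∈ Icc x s, 1 / 2 ≤ k r)
    (hlam : ∀ r ∈ Icc x s, lam r ≤ 0)
    (hcx : c x = - N * Real.sin θ) (hax : a x = - N * Real.cos θ)
    (hneg : ∀ r ∈ Icc x s, c r < 0) (hth : ∀ r ∈ Icc x s, |th r| < |c r|) :
    ∀ r ∈ Icc x s, a r ≤ - c r / κ := by
  have hcc : ContinuousOn c (Icc x s) := fun r hr => (dc r hr).continuousAt.continuousWithinAt
  have hac : ContinuousOn a (Icc x s) := fun r hr => (da r hr).continuousAt.continuousWithinAt
  have hsin : ∀ r ∈ Icc x s, 0 ≤ Real.sin (φ0 + 2 * (r - x)) := by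
    intro r hr
    apply Real.sin_nonneg_of_nonneg_of_le_pi
    · have := hr.1
      linarith
    · have := hr.2
      linarith
  have key := image_le_of_deriv_right_lt_deriv_boundary'
    (f := fun r => a r * Real.cos (φ0 + 2 * (r - x)) + c r * Real.sin (φ0 + 2 * (r - x)))
    (f' := fun r => (t * (lam r * k r) * a r - c r + th r) * Real.cos (φ0 + 2 * (r - x)) +
      a r * (- Real.sin (φ0 + 2 * (r - x)) * 2) + (a r * Real.sin (φ0 + 2 * (r - x)) +
      c r * (Real.cos (φ0 + 2 * (r - x)) * 2))) (a := x) (b := s)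
    (B := fun _ => 0) (B' := fun _ => 0)
    (by fun_prop)
    (fun r hr => by
      have hd : HasDerivAt (fun r : ℝ => φ0 + 2 * (r - x)) 2 r := by
        have h := (((hasDerivAt_id r).sub_const x).const_mul (2 : ℝ)).const_add φ0
        simpa using h
      have h1 := (da r ⟨hr.1, hr.2.le⟩).mul hd.cos
      have h2 := (dc r ⟨hr.1, hr.2.le⟩).mul hd.sin
      exact (h1.add h2).hasDerivWithinAt)
    (by
      simp only [sub_self, mul_zero, add_zero]
      rw [hax, hcx]
      have e1 : - N * Real.cos θ * Real.cos φ0 + - N * Real.sin θ * Real.sin φ0 =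
          - (N * Real.cos (θ - φ0)) := by
        rw [Real.cos_sub]
        ring
      rw [e1]
      have e2 : 0 ≤ Real.cos (θ - φ0) := Real.cos_nonneg_of_neg_pi_div_two_le_of_le
        (by have := Real.pi_pos; linarith) hθ1
      have := mul_nonneg hN.le e2
      linarith)
    continuousOn_const
    (fun r _ => hasDerivWithinAt_const _ _ _)
    (by
      intro r hr hreq
      have hr' : r ∈ Icc x s := ⟨hr.1, hr.2.le⟩
      have hS := hsin r hr'
      have hCo := hcos r hr'
      have hSC := Real.sin_sq_add_cos_sq (φ0 + 2 * (r - x))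
      have e1 := hneg r hr'
      have e2 := hth r hr'
      rw [abs_of_neg e1] at e2
      have e3 := (abs_lt.1 e2)
      generalize Real.sin (φ0 + 2 * (r - x)) = S at *
      generalize Real.cos (φ0 + 2 * (r - x)) = Q at *
      have hQ : 0 < Q := lt_of_lt_of_le hκ hCo
      have e4 : lam r * k r ≤ 0 := mul_nonpos_of_nonpos_of_nonneg (hlam r hr') (by linarith [hk r hr'])
      have e5 : t * (lam r * k r) ≤ 0 := mul_nonpos_of_nonneg_of_nonpos ht.le e4
      have e6 : a r * Q = - (c r * S) := by linarith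
      have e7 : ((t * (lam r * k r) * a r - c r + th r) * Q + a r * (-S * 2) +
          (a r * S + c r * (Q * 2))) * Q =
          t * (lam r * k r) * (- c r * S) * Q + c r * (S ^ 2 + Q ^ 2) + th r * Q ^ 2 := by
        have : ((t * (lam r * k r) * a r - c r + th r) * Q + a r * (-S * 2) +
          (a r * S + c r * (Q * 2))) * Q = t * (lam r * k r) * (a r * Q) * Q + c r * Q ^ 2 -
            (a r * Q) * S + th r * Q ^ 2 := by ring
        rw [this, e6]
        ring
      have e8 : t * (lam r * k r) * (- c r * S) * Q ≤ 0 := by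
        have : 0 ≤ - c r * S := mul_nonneg (by linarith) hS
        exact mul_nonpos_of_nonpos_of_nonneg (mul_nonpos_of_nonpos_of_nonneg e5 this) hQ.le
      have hQ2 : Q ^ 2 ≤ 1 := by nlinarith [sq_nonneg S]
      have e9 : th r * Q ^ 2 < - c r := by
        have h1 : th r * Q ^ 2 ≤ |th r| * Q ^ 2 :=
          mul_le_mul_of_nonneg_right (le_abs_self _) (by positivity)
        have h2 : |th r| * Q ^ 2 ≤ |th r| * 1 := mul_le_mul_of_nonneg_left hQ2 (abs_nonneg _)
        linarith
      have e10 : ((t * (lam r * k r) * a r - c r + th r) * Q + a r * (-S * 2) +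
          (a r * S + c r * (Q * 2))) * Q < 0 := by
        rw [e7, hSC]
        linarith
      by_contra hcon
      push Not at hcon
      have := mul_nonneg hcon hQ.le
      linarith)
  intro r hr
  have h1 := key hr
  have hS := hsin r hr
  have hS1 := Real.sin_le_one (φ0 + 2 * (r - x))
  have hCo := hcos r hr
  have e1 := hneg r hr
  generalize Real.sin (φ0 + 2 * (r - x)) = S at *
  generalize Real.cos (φ0 + 2 * (r - x)) = Q at *
  rw [le_div_iff₀ hκ]
  rcases le_or_gt 0 (a r) with ha | ha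
  · have h2 : a r * κ ≤ a r * Q := mul_le_mul_of_nonneg_left hCo ha
    have h3 : - c r * S ≤ - c r * 1 := mul_le_mul_of_nonneg_left hS1 (by linarith)
    linarith
  · have h2 : a r * κ ≤ 0 := mul_nonpos_of_nonpos_of_nonneg ha.le hκ.le
    linarith

/-- If `a ≤ |c| / κ` then `|c|` decays at most exponentially. -/
theorem decay {κ : ℝ} (dc : ∀ r ∈ Icc x s, HasDerivAt c (a r) r)
    (ha : ∀ r ∈ Icc x s, a r ≤ - c r / κ) :
    ∀ r ∈ Icc x s, c r * Real.exp ((r - x) / κ) ≤ c x := by
  have hcc : ContinuousOn c (Icc x s) := fun r hr => (dc r hr).continuousAt.continuousWithinAt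
  have key := image_le_of_deriv_right_le_deriv_boundary
    (f := fun r => c r * Real.exp ((r - x) / κ))
    (f' := fun r => a r * Real.exp ((r - x) / κ) + c r * (Real.exp ((r - x) / κ) * (1 / κ)))
    (a := x) (b := s) (B := fun _ => c x) (B' := fun _ => 0)
    (by fun_prop)
    (fun r hr => by
      have hd : HasDerivAt (fun r : ℝ => (r - x) / κ) (1 / κ) r :=
        ((hasDerivAt_id r).sub_const x).div_const κ
      exact ((dc r ⟨hr.1, hr.2.le⟩).mul hd.exp).hasDerivWithinAt)
    (by simp)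
    continuousOn_const
    (fun r _ => hasDerivWithinAt_const _ _ _)
    (by
      intro r hr
      have e1 := ha r ⟨hr.1, hr.2.le⟩
      have e2 := Real.exp_pos ((r - x) / κ)
      have e3 : a r * Real.exp ((r - x) / κ) + c r * (Real.exp ((r - x) / κ) * (1 / κ)) =
          (a r - - c r / κ) * Real.exp ((r - x) / κ) := by ring
      rw [e3]
      exact mul_nonpos_of_nonpos_of_nonneg (by linarith) e2.le)
  intro r hr
  exact key hr

/-- The bootstrap: all estimates on `[x, z]`. -/
theorem boot {φ0 κ θ δ z : ℝ} (ht : 0 < t) (hC : 0 < C) (hK : 0 < K) (hCK : C * K ≤ t) (hN : 0 < N)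
    (hκ : 0 < κ) (hδ : 0 < δ) (hz8 : z ≤ x + 1 / 8)
    (hφ0 : 0 ≤ φ0) (hcos : ∀ r ∈ Icc x z, κ ≤ Real.cos (φ0 + 2 * (r - x)))
    (hφ1 : φ0 + 2 * (z - x) ≤ Real.pi)
    (hθ0 : 0 ≤ θ - φ0) (hθ1 : θ - φ0 ≤ Real.pi / 2)
    (dc : ∀ r ∈ Icc x z, HasDerivAt c (a r) r)
    (da : ∀ r ∈ Icc x z, HasDerivAt a (t * (lam r * k r) * a r - c r + th r) r)
    (hk : ∀ r ∈ Icc x z, 1 / 2 ≤ k r)
    (hlam : ∀ r ∈ Icc x z, lam r ≤ 0) (hlK : ∀ r ∈ Icc x z, |lam r| ≤ K)
    (hth : ∀ r ∈ Icc x z, ∀ M, N ≤ M → (∀ r' ∈ Icc x r, |c r'| ≤ M) → |th r| ≤ C / t * |lam r| * M)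
    (hcx : c x = - N * Real.sin θ) (hax : a x = - N * Real.cos θ)
    (hsmall : C / t * K * (3 * N) < δ) (hstart : 2 * δ * Real.exp (1 / 8 / κ) ≤ - c x) :
    ∀ r ∈ Icc x z, c r ≤ - (2 * δ) ∧ |c r| ≤ 3 * N ∧ a r ≤ - c r / κ ∧ |th r| ≤ δ := by
  have hcxN : |c x| ≤ N := by
    rw [hcx, abs_mul, abs_neg, abs_of_pos hN]
    exact (mul_le_mul_of_nonneg_left (Real.abs_sin_le_one θ) hN.le).trans (mul_one N).le
  have haxN : |a x| ≤ N := by
    rw [hax, abs_mul, abs_neg, abs_of_pos hN]
    exact (mul_le_mul_of_nonneg_left (Real.abs_cos_le_one θ) hN.le).trans (mul_one N).le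
  -- the estimates on an interval where `c ≤ -δ`
  have est : ∀ s, s ≤ z → (∀ r ∈ Icc x s, c r ≤ - δ) →
      ∀ r ∈ Icc x s, c r ≤ - (2 * δ) ∧ |c r| ≤ 3 * N ∧ a r ≤ - c r / κ ∧ |th r| ≤ δ := by
    intro s hsz hc r hr
    have sub : ∀ r ∈ Icc x s, r ∈ Icc x z := fun r hr => ⟨hr.1, hr.2.trans hsz⟩
    have hneg : ∀ r ∈ Icc x s, c r < 0 := fun r hr => lt_of_le_of_lt (hc r hr) (by linarith)
    have h3N := size (s := s) ht hC hK hCK hN (by linarith) (fun r hr => dc r (sub r hr))
      (fun r hr => da r (sub r hr)) (fun r hr => hk r (sub r hr)) (fun r hr => hlam r (sub r hr))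
      (fun r hr => hlK r (sub r hr)) (fun r hr => hth r (sub r hr)) hcxN haxN hneg
    have hthδ : ∀ r ∈ Icc x s, |th r| < δ := by
      intro r hr
      have h1 := hth r (sub r hr) (3 * N) (by linarith)
        (fun r' hr' => h3N r' ⟨hr'.1, hr'.2.trans hr.2⟩)
      have h2 : C / t * |lam r| * (3 * N) ≤ C / t * K * (3 * N) := by
        have := hlK r (sub r hr)
        gcongr
      linarith
    have hthc : ∀ r ∈ Icc x s, |th r| < |c r| := by
      intro r hr
      rw [abs_of_neg (hneg r hr)]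
      have := hthδ r hr
      have := hc r hr
      linarith
    have hcone := cone (s := s) ht hN hκ hφ0 (fun r hr => hcos r (sub r hr)) (by linarith) hθ0 hθ1
      (fun r hr => dc r (sub r hr)) (fun r hr => da r (sub r hr)) (fun r hr => hk r (sub r hr))
      (fun r hr => hlam r (sub r hr)) hcx hax hneg hthc
    have hdec := decay (s := s) (fun r hr => dc r (sub r hr)) hcone
    refine ⟨?_, h3N r hr, hcone r hr, (hthδ r hr).le⟩
    have h1 := hdec r hr
    have h2 : Real.exp ((r - x) / κ) ≤ Real.exp (1 / 8 / κ) := by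
      apply Real.exp_le_exp.2
      apply div_le_div_of_nonneg_right _ hκ.le
      have := (sub r hr).2
      linarith
    have h3 := Real.exp_pos ((r - x) / κ)
    by_contra hcon
    push Not at hcon
    have h4 : 2 * δ * Real.exp ((r - x) / κ) ≤ 2 * δ * Real.exp (1 / 8 / κ) :=
      mul_le_mul_of_nonneg_left h2 (by positivity)
    have h5 : - (2 * δ) * Real.exp ((r - x) / κ) < c r * Real.exp ((r - x) / κ) :=
      mul_lt_mul_of_pos_right hcon h3
    linarith
  apply est z le_rfl
  by_contra hcon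
  push Not at hcon
  obtain ⟨s, hs, hcs⟩ := hcon
  have hcc : ContinuousOn c (Icc x z) := fun r hr => (dc r hr).continuousAt.continuousWithinAt
  have hcs' : ContinuousOn c (Icc x s) := hcc.mono (Icc_subset_Icc_right hs.2)
  have hcomp : IsCompact {r ∈ Icc x s | - δ ≤ c r} := by
    apply isCompact_Icc.of_isClosed_subset _ (fun r hr => hr.1)
    exact hcs'.preimage_isClosed_of_isClosed isClosed_Icc isClosed_Ici
  obtain ⟨s0, hs0, hleast⟩ := hcomp.exists_isLeast ⟨s, right_mem_Icc.2 hs.1, hcs.le⟩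
  have hlt : ∀ r, x ≤ r → r < s0 → c r < - δ := by
    intro r h1 h2
    by_contra h3
    push Not at h3
    have := hleast ⟨⟨h1, h2.le.trans hs0.1.2⟩, h3⟩
    linarith
  have hx2 : c x ≤ - (2 * δ) := by
    have : 1 ≤ Real.exp (1 / 8 / κ) := Real.one_le_exp (by positivity)
    nlinarith
  have hxs0 : x < s0 := by
    rcases hs0.1.1.eq_or_lt with h | h
    · exfalso
      have := hs0.2
      rw [← h] at this
      linarith
    · exact h
  have hs0z : s0 ≤ z := hs0.1.2.trans hs.2
  have hle : ∀ r, x ≤ r → r < s0 → c r ≤ - (2 * δ) := by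
    intro r h1 h2
    exact (est r (h2.le.trans hs0z) (fun r' hr' => (hlt r' hr'.1 (lt_of_le_of_lt hr'.2 h2)).le) r
      (right_mem_Icc.2 h1)).1
  have hlim : c s0 ≤ - (2 * δ) := by
    have hcont : Filter.Tendsto c (nhdsWithin s0 (Iio s0)) (nhds (c s0)) :=
      ((dc s0 ⟨hxs0.le, hs0z⟩).continuousAt.tendsto).mono_left nhdsWithin_le_nhds
    apply le_of_tendsto hcont
    have : Ioo x s0 ∈ nhdsWithin s0 (Iio s0) := Ioo_mem_nhdsLT hxs0
    filter_upwards [this] with r hr
    exact hle r hr.1.le hr.2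
  have := hs0.2
  linarith

/-- The damping: the quotient `|a| / |c|` decays. `τ a > 0` with a sign `τ`. -/
theorem damp {κ ε τ z : ℝ} {Lam : ℝ → ℝ} (ht : 0 < t) (hκ : 0 < κ) (hε : 0 < ε)
    (hτ : τ = 1 ∨ τ = -1) (hxz : x ≤ z)
    (hLam : ∀ r ∈ Icc x z, HasDerivAt Lam (lam r) r)
    (dc : ∀ r ∈ Icc x z, HasDerivAt c (a r) r)
    (da : ∀ r ∈ Icc x z, HasDerivAt a (t * (lam r * k r) * a r - c r + th r) r)
    (hk : ∀ r ∈ Icc x z, 1 / 2 ≤ k r) (hlam : ∀ r ∈ Icc x z, lam r ≤ 0)
    (hneg : ∀ r ∈ Icc x z, c r < 0) (hth : ∀ r ∈ Icc x z, |th r| ≤ - c r)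
    (hcone : ∀ r ∈ Icc x z, a r ≤ - c r / κ)
    (hbig : ∀ r ∈ Icc x z, ε * (- c r) ≤ τ * a r) :
    ε ≤ τ * a x / (- c x) * Real.exp (t / 2 * (Lam z - Lam x) + (2 / ε + 1 / κ) * (z - x)) := by
  obtain ⟨B, hB⟩ : ∃ B, B = 2 / ε + 1 / κ := ⟨_, rfl⟩
  have hcc : ContinuousOn c (Icc x z) := fun r hr => (dc r hr).continuousAt.continuousWithinAt
  have hac : ContinuousOn a (Icc x z) := fun r hr => (da r hr).continuousAt.continuousWithinAt
  have hLc : ContinuousOn Lam (Icc x z) := fun r hr => (hLam r hr).continuousAt.continuousWithinAt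
  have key := image_le_of_deriv_right_le_deriv_boundary
    (f := fun r => τ * a r / (- c r) * Real.exp (- (t / 2 * (Lam r - Lam x) + B * (r - x))))
    (f' := fun r => (τ * (t * (lam r * k r) * a r - c r + th r) * (- c r) - τ * a r * (- a r)) /
        (- c r) ^ 2 * Real.exp (- (t / 2 * (Lam r - Lam x) + B * (r - x))) +
      τ * a r / (- c r) * (Real.exp (- (t / 2 * (Lam r - Lam x) + B * (r - x))) *
        (- (t / 2 * lam r + B))))
    (a := x) (b := z) (B := fun _ => τ * a x / (- c x)) (B' := fun _ => 0)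
    (by
      apply ContinuousOn.mul
      · apply ContinuousOn.div (hac.const_mul τ) hcc.neg
        intro r hr
        have := hneg r hr
        show - c r ≠ 0
        linarith
      · fun_prop)
    (fun r hr => by
      have hr' : r ∈ Icc x z := ⟨hr.1, hr.2.le⟩
      have hd : HasDerivAt (fun r : ℝ => - (t / 2 * (Lam r - Lam x) + B * (r - x)))
          (- (t / 2 * lam r + B)) r := by
        have h : HasDerivAt (fun r : ℝ => - (t / 2 * (Lam r - Lam x) + B * (r - x)))
            (- (t / 2 * lam r + B * 1)) r :=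
          ((((hLam r hr').sub_const (Lam x)).const_mul (t / 2)).add
            (((hasDerivAt_id r).sub_const x).const_mul B)).neg
        rw [mul_one] at h
        exact h
      have hq := ((da r hr').const_mul τ).div (dc r hr').neg (by
        have := hneg r hr'
        show - c r ≠ 0
        linarith)
      exact (hq.mul hd.exp).hasDerivWithinAt)
    (by simp)
    continuousOn_const
    (fun r _ => hasDerivWithinAt_const _ _ _)
    (by
      intro r hr
      have hr' : r ∈ Icc x z := ⟨hr.1, hr.2.le⟩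
      have hu : 0 < - c r := by
        have := hneg r hr'
        linarith
      obtain ⟨u, hu'⟩ : ∃ u, u = - c r := ⟨_, rfl⟩
      have hcu : c r = - u := by linarith
      obtain ⟨A, hA⟩ : ∃ A, A = τ * a r := ⟨_, rfl⟩
      have hbr := hbig r hr'
      rw [← hu', ← hA] at hbr
      rw [← hu'] at hu
      have hA0 : 0 < A := lt_of_lt_of_le (mul_pos hε hu) hbr
      have hth' := hth r hr'
      rw [← hu'] at hth'
      have hcone' := hcone r hr'
      rw [← hu'] at hcone'
      have hexp := Real.exp_pos (- (t / 2 * (Lam r - Lam x) + B * (r - x)))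
      generalize Real.exp (- (t / 2 * (Lam r - Lam x) + B * (r - x))) = X at *
      have hkl : t * (lam r * k r) * A ≤ t / 2 * lam r * A := by
        have h1 : lam r * k r ≤ lam r * (1 / 2) :=
          mul_le_mul_of_nonpos_left (hk r hr') (hlam r hr')
        have h2 : t * (lam r * k r) ≤ t * (lam r * (1 / 2)) := mul_le_mul_of_nonneg_left h1 ht.le
        have h3 := mul_le_mul_of_nonneg_right h2 hA0.le
        linarith
      have hthτ : |τ * th r| ≤ u := by
        rcases hτ with h | h <;> rw [h] <;> simpa using hth'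
      have hmain : τ * (t * (lam r * k r) * a r - c r + th r) * u + A * a r ≤
          (t / 2 * lam r + B) * A * u := by
        have e1 : τ * (t * (lam r * k r) * a r - c r + th r) * u + A * a r =
            t * (lam r * k r) * A * u + (τ * u + τ * th r) * u + A * a r := by
          rw [hA, hcu]
          ring
        rw [e1]
        have e2 : t * (lam r * k r) * A * u ≤ t / 2 * lam r * A * u :=
          mul_le_mul_of_nonneg_right hkl hu.le
        have e3 : (τ * u + τ * th r) * u + A * a r ≤ B * A * u := by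
          have hB0 : 0 < B := by rw [hB]; positivity
          rcases hτ with h | h
          · -- τ = 1
            have h1 : (τ * u + τ * th r) ≤ 2 * u := by
              have := (abs_le.1 hthτ).2
              rw [h] at this ⊢
              linarith
            have h2 : (τ * u + τ * th r) * u ≤ 2 * u * u := mul_le_mul_of_nonneg_right h1 hu.le
            have h3 : 2 * u * u ≤ 2 / ε * A * u := by
              have h4 : u ≤ A / ε := by
                rw [le_div_iff₀ hε]
                linarith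
              have h5 : 2 * u * u ≤ 2 * (A / ε) * u := by gcongr
              have h6 : 2 * (A / ε) * u = 2 / ε * A * u := by ring
              linarith
            have h7 : A * a r ≤ A * (u / κ) := mul_le_mul_of_nonneg_left hcone' hA0.le
            have h8 : B * A * u = 2 / ε * A * u + A * (u / κ) := by
              rw [hB]
              ring
            linarith
          · have h1 : (τ * u + τ * th r) ≤ 0 := by
              have := (abs_le.1 hthτ).2
              rw [h] at this ⊢
              linarith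
            have h2 : (τ * u + τ * th r) * u ≤ 0 := mul_nonpos_of_nonpos_of_nonneg h1 hu.le
            have h3 : a r = - A := by
              rw [hA, h]
              ring
            have h4 : A * a r ≤ 0 := by
              rw [h3]
              have := mul_pos hA0 hA0
              linarith
            have h5 : 0 ≤ B * A * u := by positivity
            linarith
        have e4 : (t / 2 * lam r + B) * A * u = t / 2 * lam r * A * u + B * A * u := by ring
        rw [e4]
        linarith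
      have hfin : (τ * (t * (lam r * k r) * a r - c r + th r) * u - A * (- a r)) / u ^ 2 * X +
          A / u * (X * (- (t / 2 * lam r + B))) =
          (τ * (t * (lam r * k r) * a r - c r + th r) * u + A * a r -
            (t / 2 * lam r + B) * A * u) * (X / u ^ 2) := by
        field_simp
        ring
      rw [← hu', ← hA, hfin]
      exact mul_nonpos_of_nonpos_of_nonneg (by linarith) (by positivity))
  have h1 := key (right_mem_Icc.2 hxz)
  have h2 := hbig z (right_mem_Icc.2 hxz)
  have h3 := hneg z (right_mem_Icc.2 hxz)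
  have h4 : ε ≤ τ * a z / (- c z) := by
    rw [le_div_iff₀ (by linarith)]
    exact h2
  rw [← hB]
  have h5 := Real.exp_pos (- (t / 2 * (Lam z - Lam x) + B * (z - x)))
  have h6 : ε * Real.exp (- (t / 2 * (Lam z - Lam x) + B * (z - x))) ≤ τ * a x / (- c x) :=
    (mul_le_mul_of_nonneg_right h4 h5.le).trans h1
  rw [Real.exp_neg, ← div_eq_mul_inv, div_le_iff₀ (Real.exp_pos _)] at h6
  exact h6

/-- A function without zeros has a constant sign. -/
theorem sign_const {z ε : ℝ} (hxz : x ≤ z) (hε : 0 < ε) (hac : ContinuousOn a (Icc x z))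
    (hneg : ∀ r ∈ Icc x z, c r < 0) (hbig : ∀ r ∈ Icc x z, ε * |c r| < |a r|) :
    ∃ τ : ℝ, (τ = 1 ∨ τ = -1) ∧ ∀ r ∈ Icc x z, ε * (- c r) ≤ τ * a r := by
  have hne : ∀ r ∈ Icc x z, a r ≠ 0 := by
    intro r hr h0
    have h1 := hbig r hr
    rw [h0, abs_zero] at h1
    have := mul_nonneg hε.le (abs_nonneg (c r))
    linarith
  have hx : x ∈ Icc x z := left_mem_Icc.2 hxz
  rcases lt_or_gt_of_ne (hne x hx) with h | h
  · refine ⟨-1, Or.inr rfl, ?_⟩
    intro r hr
    have ha : a r < 0 := by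
      by_contra hcon
      push Not at hcon
      have hsub : Icc x r ⊆ Icc x z := Icc_subset_Icc_right hr.2
      obtain ⟨r', hr', h0⟩ := intermediate_value_Icc hr.1 (hac.mono hsub) ⟨h.le, hcon⟩
      exact hne r' (hsub hr') h0
    have h1 := hbig r hr
    rw [abs_of_neg ha, abs_of_neg (hneg r hr)] at h1
    linarith
  · refine ⟨1, Or.inl rfl, ?_⟩
    intro r hr
    have ha : 0 < a r := by
      by_contra hcon
      push Not at hcon
      have hsub : Icc x r ⊆ Icc x z := Icc_subset_Icc_right hr.2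
      obtain ⟨r', hr', h0⟩ := intermediate_value_Icc' hr.1 (hac.mono hsub) ⟨hcon, h.le⟩
      exact hne r' (hsub hr') h0
    have h1 := hbig r hr
    rw [abs_of_pos ha, abs_of_neg (hneg r hr)] at h1
    linarith

/-- Lower bound of the sine. -/
theorem sin_lower {g G θ w : ℝ} (hg : 0 < g) (hG : 0 < G) (hw : 0 < w) (hwG : g / G ≤ w)
    (h1 : g / w ≤ θ) (h2 : θ ≤ Real.pi - G) : g / (2 * w) ≤ Real.sin θ := by
  have hpi := Real.pi_pos
  have hpi4 := Real.pi_le_four
  have hhalf : 1 / 2 ≤ 2 / Real.pi := by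
    rw [div_le_div_iff₀ (by norm_num) hpi]
    linarith
  have hgw : 0 < g / w := by positivity
  have e0 : g / (2 * w) = 1 / 2 * (g / w) := by
    field_simp
  rw [e0]
  rcases le_or_gt θ (Real.pi / 2) with h | h
  · have h3 := Real.mul_le_sin (by linarith) h
    have h4 : 1 / 2 * (g / w) ≤ 2 / Real.pi * θ := by gcongr
    linarith
  · have h3 := Real.mul_le_sin (x := Real.pi - θ) (by linarith) (by linarith)
    rw [Real.sin_pi_sub] at h3
    have h5 : g / w ≤ G := by
      rw [div_le_iff₀ hw]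
      rw [div_le_iff₀ hG] at hwG
      linarith
    have h4 : 1 / 2 * (g / w) ≤ 2 / Real.pi * (Real.pi - θ) := by
      have : g / w ≤ Real.pi - θ := by linarith
      gcongr
    linarith

theorem main : S_D1 := by
  intro x y z lam Lam hlc hLam hxz hzy hlam hdrop C g G0 ε hC hg hG0 hG0pi hε
  obtain ⟨G, hGd⟩ : ∃ G, G = min G0 1 := ⟨_, rfl⟩
  have hG : 0 < G := by rw [hGd]; exact lt_min hG0 one_pos
  have hG1 : G ≤ 1 := by rw [hGd]; exact min_le_right _ _
  have hGG : G ≤ G0 := by rw [hGd]; exact min_le_left _ _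
  obtain ⟨x0, hx0d⟩ : ∃ x0, x0 = min (z - x) (G / 8) := ⟨_, rfl⟩
  have hx0 : 0 < x0 := by rw [hx0d]; exact lt_min (by linarith) (by linarith)
  have hx0z : x0 ≤ z - x := by rw [hx0d]; exact min_le_left _ _
  have hx0G : x0 ≤ G / 8 := by rw [hx0d]; exact min_le_right _ _
  obtain ⟨w, hw⟩ : ∃ w, w = x + x0 := ⟨_, rfl⟩
  have hxw : x < w := by linarith
  have hwz : w ≤ z := by linarith
  have hsub : ∀ r ∈ Icc x w, r ∈ Icc x y := fun r hr => ⟨hr.1, by linarith [hr.2]⟩
  have hpi := Real.pi_pos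
  have hpi3 := Real.pi_gt_three
  obtain ⟨κ, hκd⟩ : ∃ κ, κ = Real.cos (Real.pi / 2 - G / 2) := ⟨_, rfl⟩
  have hκ : 0 < κ := by
    rw [hκd, Real.cos_pi_div_two_sub]
    exact Real.sin_pos_of_pos_of_lt_pi (by linarith) (by linarith)
  obtain ⟨K0, hK0⟩ := isCompact_Icc.exists_bound_of_continuousOn (s := Icc x y) hlc.continuousOn
  obtain ⟨K, hKd⟩ : ∃ K, K = max 1 K0 := ⟨_, rfl⟩
  have hK1 : 1 ≤ K := by rw [hKd]; exact le_max_left _ _
  have hK : ∀ r ∈ Icc x y, |lam r| ≤ K := fun r hr =>
    (hK0 r hr).trans (by rw [hKd]; exact le_max_right _ _)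
  have hKpos : 0 < K := by linarith
  have hCpos : 0 < C := by linarith
  obtain ⟨c1, hc1d⟩ : ∃ c1, c1 = g / 4 * Real.exp (- (1 / 8 / κ)) := ⟨_, rfl⟩
  have hc1 : 0 < c1 := by rw [hc1d]; positivity
  obtain ⟨ω, hωd⟩ : ∃ ω, ω = Lam x - Lam w := ⟨_, rfl⟩
  have hω : 0 < ω := by
    have := hdrop w ⟨hxw, hwz.trans hzy⟩
    linarith
  obtain ⟨B, hBd⟩ : ∃ B, B = (2 / ε + 1 / κ) * (w - x) := ⟨_, rfl⟩
  have hev : ∀ᶠ t : ℝ in Filter.atTop, 1 ≤ t ∧ C * K ≤ t ∧ (3 * C * K / c1) < Real.sqrt t ∧
      g / G ≤ Real.sqrt t ∧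
      t ^ (1 / 2 : ℝ) * Real.exp (- (ω / 2) * t) < ε * (g / 2) * Real.exp (- B) := by
    have hsq : Filter.Tendsto (fun t : ℝ => Real.sqrt t) Filter.atTop Filter.atTop :=
      Real.tendsto_sqrt_atTop
    have hlim := tendsto_rpow_mul_exp_neg_mul_atTop_nhds_zero (1 / 2 : ℝ) (ω / 2) (by positivity)
    have hpos : 0 < ε * (g / 2) * Real.exp (- B) := by positivity
    filter_upwards [Filter.eventually_ge_atTop (1 : ℝ), Filter.eventually_ge_atTop (C * K),
      hsq.eventually_gt_atTop (3 * C * K / c1), hsq.eventually_ge_atTop (g / G),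
      hlim.eventually_lt_const hpos] with t h1 h2 h3 h4 h5
    exact ⟨h1, h2, h3, h4, h5⟩
  obtain ⟨t0, ht0⟩ := Filter.eventually_atTop.1 hev
  refine ⟨max t0 1, c1, 3, le_max_right _ _, hc1, by norm_num, ?_⟩
  intro t htt k c a th N θ hN hsys hθ1 hθ2 hcx hax
  obtain ⟨h1t, hCKt, hst, hgt, hexp⟩ := ht0 t ((le_max_left _ _).trans htt)
  have ht : 0 < t := by linarith
  obtain ⟨w', hw'⟩ : ∃ w', w' = Real.sqrt t := ⟨_, rfl⟩
  rw [← hw'] at hst hgt hθ1 ⊢
  have hw'0 : 0 < w' := by rw [hw']; exact Real.sqrt_pos.2 ht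
  have hww : w' * w' = t := by rw [hw']; exact Real.mul_self_sqrt ht.le
  have hθ2' : θ ≤ Real.pi - G := by linarith
  have hsin := sin_lower hg hG hw'0 hgt hθ1 hθ2'
  obtain ⟨φ0, hφ0d⟩ : ∃ φ0, φ0 = max (θ - Real.pi / 2) 0 := ⟨_, rfl⟩
  have hφ00 : 0 ≤ φ0 := by rw [hφ0d]; exact le_max_right _ _
  have hφ01 : φ0 ≤ Real.pi / 2 - G := by
    rw [hφ0d]
    apply max_le
    · linarith
    · linarith
  have hθpos : 0 < θ := lt_of_lt_of_le (by positivity) hθ1
  have hθφ0 : 0 ≤ θ - φ0 := by
    rw [hφ0d]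
    rcases max_cases (θ - Real.pi / 2) 0 with ⟨h, _⟩ | ⟨h, _⟩ <;> rw [h] <;> linarith
  have hθφ1 : θ - φ0 ≤ Real.pi / 2 := by
    have : θ - Real.pi / 2 ≤ φ0 := by rw [hφ0d]; exact le_max_left _ _
    linarith
  have hcos : ∀ r ∈ Icc x w, κ ≤ Real.cos (φ0 + 2 * (r - x)) := by
    intro r hr
    rw [hκd]
    apply Real.cos_le_cos_of_nonneg_of_le_pi
    · have := hr.1
      linarith
    · linarith
    · have := hr.2
      linarith
  obtain ⟨δ, hδd⟩ : ∃ δ, δ = c1 / w' * N := ⟨_, rfl⟩
  have hδ : 0 < δ := by rw [hδd]; positivity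
  have hsmall : C / t * K * (3 * N) < δ := by
    rw [hδd, ← hww]
    have e1 : C / (w' * w') * K * (3 * N) = (3 * C * K) / w' * (N / w') := by
      field_simp
    have e2 : c1 / w' * N = c1 * (N / w') := by
      field_simp
    rw [e1, e2]
    apply mul_lt_mul_of_pos_right _ (by positivity)
    rw [div_lt_iff₀ hw'0]
    rw [div_lt_iff₀ hc1] at hst
    linarith
  have hcxlow : N * (g / (2 * w')) ≤ - c x := by
    rw [hcx]
    have := mul_le_mul_of_nonneg_left hsin hN.le
    linarith
  have hstart : 2 * δ * Real.exp (1 / 8 / κ) ≤ - c x := by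
    refine le_trans (le_of_eq ?_) hcxlow
    rw [hδd, hc1d, Real.exp_neg]
    have := (Real.exp_pos (1 / 8 / κ)).ne'
    field_simp
    ring
  have hb := boot (z := w) ht hCpos hKpos hCKt hN hκ hδ (by linarith) hφ00 hcos
    (by linarith) hθφ0 hθφ1 (fun r hr => hsys.dc r (hsub r hr)) (fun r hr => hsys.da r (hsub r hr))
    (fun r hr => hsys.le_k r (hsub r hr)) (fun r hr => hlam r (hsub r hr))
    (fun r hr => hK r (hsub r hr)) (fun r hr => hsys.th_le r (hsub r hr)) hcx hax hsmall hstart
  have hneg : ∀ r ∈ Icc x w, c r < 0 := by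
    intro r hr
    have := (hb r hr).1
    linarith
  by_cases hex : ∃ s1 ∈ Icc x w, |a s1| ≤ ε * |c s1|
  · obtain ⟨s1, hs1, has1⟩ := hex
    refine ⟨s1, ⟨hs1.1, hs1.2.trans hwz⟩, ?_, has1⟩
    intro r hr
    have hr' : r ∈ Icc x w := ⟨hr.1, hr.2.trans hs1.2⟩
    obtain ⟨b1, b2, b3, b4⟩ := hb r hr'
    refine ⟨hneg r hr', b2, ?_⟩
    rw [← hδd, abs_of_neg (hneg r hr')]
    linarith
  · exfalso
    push Not at hex
    have hac : ContinuousOn a (Icc x w) := fun r hr =>
      (hsys.da r (hsub r hr)).continuousAt.continuousWithinAt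
    obtain ⟨τ, hτ, hbig⟩ := sign_const hxw.le hε hac hneg hex
    have hd := damp (Lam := Lam) (κ := κ) ht hκ hε hτ hxw.le (fun r _ => hLam r)
      (fun r hr => hsys.dc r (hsub r hr)) (fun r hr => hsys.da r (hsub r hr))
      (fun r hr => hsys.le_k r (hsub r hr)) (fun r hr => hlam r (hsub r hr)) hneg
      (fun r hr => by
        obtain ⟨b1, b2, b3, b4⟩ := hb r hr
        linarith)
      (fun r hr => (hb r hr).2.2.1) hbig
    have hcx0 : 0 < - c x := by
      have := hneg x (left_mem_Icc.2 hxw.le)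
      linarith
    have hq : τ * a x / (- c x) ≤ 2 * w' / g := by
      rw [div_le_div_iff₀ hcx0 hg]
      have e1 : τ * a x ≤ N := by
        have h1 : |τ * a x| ≤ N := by
          rw [abs_mul]
          have h2 : |τ| = 1 := by rcases hτ with h | h <;> rw [h] <;> simp
          rw [h2, one_mul, hax, abs_mul, abs_neg, abs_of_pos hN]
          exact (mul_le_mul_of_nonneg_left (Real.abs_cos_le_one θ) hN.le).trans (mul_one N).le
        exact (le_abs_self _).trans h1
      have e2 : τ * a x * g ≤ N * g := mul_le_mul_of_nonneg_right e1 hg.le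
      have e3 : 2 * w' * (N * (g / (2 * w'))) ≤ 2 * w' * (- c x) :=
        mul_le_mul_of_nonneg_left hcxlow (by positivity)
      have e4 : 2 * w' * (N * (g / (2 * w'))) = N * g := by
        field_simp
      linarith
    have e5 : Real.exp (t / 2 * (Lam w - Lam x) + (2 / ε + 1 / κ) * (w - x)) =
        Real.exp (- (ω / 2) * t) * Real.exp B := by
      rw [← Real.exp_add]
      congr 1
      rw [hωd, hBd]
      ring
    rw [e5] at hd
    have e6 : 0 < Real.exp (- (ω / 2) * t) * Real.exp B := by positivity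
    have e7 := mul_le_mul_of_nonneg_right hq e6.le
    rw [← Real.sqrt_eq_rpow, ← hw'] at hexp
    have e8 : 2 * w' / g * (Real.exp (- (ω / 2) * t) * Real.exp B) =
        w' * Real.exp (- (ω / 2) * t) * (2 / g * Real.exp B) := by ring
    have e9 : w' * Real.exp (- (ω / 2) * t) * (2 / g * Real.exp B) <
        ε * (g / 2) * Real.exp (- B) * (2 / g * Real.exp B) :=
      mul_lt_mul_of_pos_right hexp (by positivity)
    have e10 : ε * (g / 2) * Real.exp (- B) * (2 / g * Real.exp B) = ε := by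
      rw [Real.exp_neg]
      have := (Real.exp_pos B).ne'
      field_simp
    linarith

end Pool.Agent.W540.LG.D1
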